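import Mathlib

/-! Module L3: numerics of the ladder (for MP_3f1d68_pr) -/

namespace Pool.Agent.Helper37.Canopy

open Filter

theorem num_aux (B C : ℝ) (hB : 0 ≤ B) :
    ∃ N : ℕ, ∀ m : ℕ, N ≤ m → C * ((m : ℝ) + 1) * B ^ m ≤ 2 ^ (m ^ 2) := by
  set C1 : ℝ := max C 1 with hC1
  have hC1' : 1 ≤ C1 := le_max_right _ _
  have hCC : C ≤ C1 := le_max_left _ _
  obtain ⟨N, hN⟩ := pow_unbounded_of_one_lt (2 * B * C1) (show (1 : ℝ) < 2 by norm_num)
  refine ⟨max N 1, fun m hm => ?_⟩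
  have hmN : N ≤ m := le_trans (le_max_left _ _) hm
  have hm1 : 1 ≤ m := le_trans (le_max_right _ _) hm
  have h1 : 2 * B * C1 ≤ 2 ^ m :=
    hN.le.trans (pow_le_pow_right₀ (by norm_num) hmN)
  have h2 : (2 * B * C1) ^ m ≤ (2 ^ m) ^ m := pow_le_pow_left₀ (by positivity) h1 m
  have h3 : ((m : ℝ) + 1) ≤ 2 ^ m := by
    have : m + 1 ≤ 2 ^ m := Nat.lt_two_pow_self
    exact_mod_cast this
  have h4 : C1 ≤ C1 ^ m := le_self_pow₀ hC1' (by omega)
  calc C * ((m : ℝ) + 1) * B ^ m ≤ C1 ^ m * 2 ^ m * B ^ m := by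
        have hB' : 0 ≤ B ^ m := pow_nonneg hB m
        refine mul_le_mul_of_nonneg_right ?_ hB'
        calc C * ((m : ℝ) + 1) ≤ C1 * ((m : ℝ) + 1) :=
              mul_le_mul_of_nonneg_right hCC (by positivity)
          _ ≤ C1 ^ m * 2 ^ m := mul_le_mul h4 h3 (by positivity) (by positivity)
    _ = (2 * B * C1) ^ m := by rw [mul_pow, mul_pow]; ring
    _ ≤ (2 ^ m) ^ m := h2
    _ = 2 ^ (m ^ 2) := by rw [← pow_mul, sq]

theorem geom_small (q : ℝ) (hq0 : 0 ≤ q) (hq1 : q < 1) :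
    ∃ N0 : ℕ, ∀ N : ℕ, N0 ≤ N →
      2 * (Real.exp (-1)) ^ N * (1 - Real.exp (-1))⁻¹ + q ^ N * (1 - q)⁻¹ < 1 := by
  have he0 : 0 ≤ Real.exp (-1) := (Real.exp_pos _).le
  have he1 : Real.exp (-1) < 1 := by
    rw [Real.exp_lt_one_iff]; norm_num
  have t1 : Tendsto (fun N : ℕ => (Real.exp (-1)) ^ N) atTop (nhds 0) :=
    tendsto_pow_atTop_nhds_zero_of_lt_one he0 he1
  have t2 : Tendsto (fun N : ℕ => q ^ N) atTop (nhds 0) :=
    tendsto_pow_atTop_nhds_zero_of_lt_one hq0 hq1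
  have t3 : Tendsto (fun N : ℕ => 2 * (Real.exp (-1)) ^ N * (1 - Real.exp (-1))⁻¹
      + q ^ N * (1 - q)⁻¹) atTop (nhds (2 * 0 * (1 - Real.exp (-1))⁻¹ + 0 * (1 - q)⁻¹)) :=
    ((t1.const_mul 2).mul_const _).add (t2.mul_const _)
  have : (2 * 0 * (1 - Real.exp (-1))⁻¹ + 0 * (1 - q)⁻¹ : ℝ) < 1 := by
    simp
  obtain ⟨N0, h⟩ := eventually_atTop.1 (t3.eventually_lt_const this)
  exact ⟨N0, h⟩

/-- L3: numerics. -/
theorem ladder_numeric {p : ℝ} (hp : 0 < p) (hp1 : p ≤ 1) {c : ℝ} (hc : 0 < c) (hc1 : c ≤ 1)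
    (k K₀ M₀ H : ℕ) :
    ∃ (s κ r h T : ℕ → ℕ) (α : ℕ → ℤ) (ε : ℕ → ℝ),
      (∀ n, K₀ + k * s n ≤ κ n) ∧ (∀ n, ((M₀ + H * s n : ℕ) : ℤ) ≤ α n) ∧
      (∀ n, 2 * h n ≤ 2 ^ s n) ∧
      (∀ n, κ (n + 1) = κ n + r n) ∧ (∀ n, 1 ≤ r n) ∧ (∀ n, α (n + 1) = α n + h n) ∧
      (∀ n, 2 * h n ≤ h (n + 1)) ∧ T 0 ≤ h 0 + 1 ∧ (∀ n, 1 ≤ T n) ∧
      (∀ n, (1 - p ^ r n) ^ T n + (1 - p * c / 2) ^ r n
        + 2 ^ T (n + 1) * (1 - p ^ (r n + 1) / 2) ^ ⌈c * h n / 2⌉₊ ≤ ε n) ∧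
      (∀ n, 0 ≤ ε n) ∧ Summable ε ∧ ∑' n, ε n < 1 := by
  set k' : ℕ := max k 1 with hk'
  have hk1 : 1 ≤ k' := le_max_right _ _
  have hkk : k ≤ k' := le_max_left _ _
  set P : ℝ := p⁻¹ with hP
  have hP1 : 1 ≤ P := (one_le_inv₀ hp).2 hp1
  have hP0 : 0 < P := by positivity
  set q : ℝ := 1 - p * c / 2 with hq
  have hpc : p * c ≤ 1 := by
    calc p * c ≤ 1 * 1 := mul_le_mul hp1 hc1 hc.le (by norm_num)
      _ = 1 := by norm_num
  have hpc0 : 0 < p * c := mul_pos hp hc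
  have hq0 : 0 ≤ q := by rw [hq]; linarith
  have hq1 : q < 1 := by rw [hq]; linarith
  obtain ⟨N1, hN1⟩ := num_aux 1 (4 * H) (by norm_num)
  obtain ⟨N2, hN2⟩ := num_aux (P ^ (2 * k')) (2 * P ^ (k' + 1)) (by positivity)
  obtain ⟨N3, hN3⟩ := num_aux (P ^ (4 * k')) ((16 / c) * P ^ (4 * k' + 2)) (by positivity)
  obtain ⟨N4, hN4⟩ := geom_small q hq0 hq1
  obtain ⟨N, hNN⟩ : ∃ N, N = N1 + N2 + N3 + N4 + 1 := ⟨_, rfl⟩
  have hNge : 1 ≤ N := by omega
  -- sequences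
  let s : ℕ → ℕ := fun n => (n + N) ^ 2
  let κ : ℕ → ℕ := fun n => K₀ + k' * (n + N) ^ 2
  let r : ℕ → ℕ := fun n => k' * (2 * (n + N) + 1)
  let h : ℕ → ℕ := fun n => 2 ^ ((n + N) ^ 2 - 1)
  let T : ℕ → ℕ := fun n => ⌈((n + N : ℕ) : ℝ) * P ^ (r n + 1)⌉₊
  let α : ℕ → ℤ := fun n => M₀ + H * N ^ 2 + ∑ i ∈ Finset.range n, (h i : ℤ)
  let ε : ℕ → ℝ := fun n => 2 * (Real.exp (-1)) ^ (n + N) + q ^ (n + N)
  have hsq : ∀ n, 1 ≤ (n + N) ^ 2 := fun n => Nat.one_le_pow _ _ (by omega)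
  have h2h : ∀ n, 2 * h n = 2 ^ ((n + N) ^ 2) := by
    intro n
    show 2 * 2 ^ ((n + N) ^ 2 - 1) = 2 ^ ((n + N) ^ 2)
    rw [← pow_succ', Nat.sub_add_cancel (hsq n)]
  have h2hR : ∀ n, 2 * (h n : ℝ) = 2 ^ ((n + N) ^ 2) := by
    intro n; exact_mod_cast h2h n
  have hr1 : ∀ n, 1 ≤ r n := fun n => Nat.one_le_iff_ne_zero.2 (by
    show k' * (2 * (n + N) + 1) ≠ 0
    have : k' ≠ 0 := by omega
    positivity)
  have hrm : ∀ n, n + N ≤ r n := by
    intro n
    show n + N ≤ k' * (2 * (n + N) + 1)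
    calc n + N ≤ 1 * (2 * (n + N) + 1) := by omega
      _ ≤ k' * (2 * (n + N) + 1) := Nat.mul_le_mul_right _ hk1
  have hpP : p * P = 1 := mul_inv_cancel₀ hp.ne'
  have he0 : 0 ≤ Real.exp (-1) := (Real.exp_pos _).le
  have he1 : Real.exp (-1) < 1 := by
    rw [Real.exp_lt_one_iff]; norm_num
  have hexp : ∀ m : ℕ, (Real.exp (-1)) ^ m = Real.exp (-(m : ℝ)) := by
    intro m
    rw [← Real.exp_nat_mul]; congr 1; ring
  refine ⟨s, κ, r, h, T, α, ε, ?_, ?_, ?_, ?_, hr1, ?_, ?_, ?_, ?_, ?_, ?_, ?_, ?_⟩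
  · intro n
    show K₀ + k * (n + N) ^ 2 ≤ K₀ + k' * (n + N) ^ 2
    have := Nat.mul_le_mul_right ((n + N) ^ 2) hkk
    omega
  · intro n
    show ((M₀ + H * (n + N) ^ 2 : ℕ) : ℤ) ≤ M₀ + H * N ^ 2 + ∑ i ∈ Finset.range n, (h i : ℤ)
    induction n with
    | zero => simp
    | succ n ih =>
      rw [Finset.sum_range_succ]
      have hA := hN1 (n + N) (by omega)
      rw [one_pow, mul_one] at hA
      have hA' : H * (2 * (n + N) + 1) ≤ h n := by
        have h3 : (4 * H * ((n + N : ℕ) + 1 : ℝ)) ≤ 2 * (h n : ℝ) := by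
          rw [h2hR]; exact hA
        have h4 : 4 * H * ((n + N) + 1) ≤ 2 * h n := by exact_mod_cast h3
        nlinarith
      have hA'' : ((H * (2 * (n + N) + 1) : ℕ) : ℤ) ≤ (h n : ℤ) := by exact_mod_cast hA'
      push_cast at ih hA'' ⊢
      nlinarith
  · intro n
    exact (h2h n).le
  · intro n
    show K₀ + k' * (n + 1 + N) ^ 2 = K₀ + k' * (n + N) ^ 2 + k' * (2 * (n + N) + 1)
    ring
  · intro n
    show (M₀ : ℤ) + H * N ^ 2 + ∑ i ∈ Finset.range (n + 1), (h i : ℤ)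
      = M₀ + H * N ^ 2 + ∑ i ∈ Finset.range n, (h i : ℤ) + h n
    rw [Finset.sum_range_succ]; ring
  · intro n
    rw [h2h n]
    show 2 ^ ((n + N) ^ 2) ≤ 2 ^ ((n + 1 + N) ^ 2 - 1)
    apply Nat.pow_le_pow_right (by norm_num)
    have : (n + 1 + N) ^ 2 = (n + N) ^ 2 + (2 * (n + N) + 1) := by ring
    omega
  · -- T 0 ≤ h 0 + 1
    show ⌈((0 + N : ℕ) : ℝ) * P ^ (r 0 + 1)⌉₊ ≤ h 0 + 1
    apply Nat.ceil_le.2
    have hB := hN2 N (by omega)
    have h5 : 2 * (h 0 : ℝ) = 2 ^ (N ^ 2) := by simpa using h2hR 0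
    have h6 : P ^ (r 0 + 1) = P ^ (k' + 1) * (P ^ (2 * k')) ^ N := by
      rw [← pow_mul, ← pow_add]; congr 1
      show k' * (2 * (0 + N) + 1) + 1 = _
      ring
    rw [h6]
    push_cast
    have h7 : 0 ≤ P ^ (k' + 1) * (P ^ (2 * k')) ^ N := by positivity
    rw [← h5] at hB
    nlinarith [h7]
  · intro n
    show 1 ≤ ⌈((n + N : ℕ) : ℝ) * P ^ (r n + 1)⌉₊
    apply Nat.one_le_ceil_iff.2
    have : (0 : ℝ) < ((n + N : ℕ) : ℝ) := by
      exact_mod_cast (by omega : 0 < n + N)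
    positivity
  · intro n
    set m : ℕ := n + N with hm
    have hmN3 : N3 ≤ m := by omega
    have hm0 : (0 : ℝ) ≤ (m : ℝ) := Nat.cast_nonneg _
    -- first term
    have e1 : (1 - p ^ r n) ^ T n ≤ (Real.exp (-1)) ^ m := by
      have hx0 : 0 < p ^ r n := by positivity
      have hx1 : p ^ r n ≤ 1 := pow_le_one₀ hp.le hp1
      have a1 : (1 - p ^ r n) ^ T n ≤ (Real.exp (-(p ^ r n))) ^ T n :=
        pow_le_pow_left₀ (by linarith) (Real.one_sub_le_exp_neg _) _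
      refine a1.trans ?_
      rw [← Real.exp_nat_mul, hexp]
      apply Real.exp_le_exp.2
      have a2 : ((m : ℕ) : ℝ) * P ^ (r n + 1) ≤ (T n : ℝ) := Nat.le_ceil _
      have a3 : (m : ℝ) ≤ p ^ r n * T n := by
        calc (m : ℝ) ≤ (m : ℝ) * P := by nlinarith
          _ = p ^ r n * ((m : ℝ) * P ^ (r n + 1)) := by
              rw [pow_succ]
              have : p ^ r n * P ^ r n = 1 := by rw [← mul_pow, hpP, one_pow]
              linear_combination (-(m : ℝ) * P) * this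
          _ ≤ p ^ r n * T n := mul_le_mul_of_nonneg_left a2 hx0.le
      nlinarith
    have e2 : (1 - p * c / 2) ^ r n ≤ q ^ m :=
      pow_le_pow_of_le_one hq0 hq1.le (hrm n)
    have e3 : 2 ^ T (n + 1) * (1 - p ^ (r n + 1) / 2) ^ ⌈c * h n / 2⌉₊ ≤ (Real.exp (-1)) ^ m := by
      have hx0 : 0 < p ^ (r n + 1) / 2 := by positivity
      have hx1 : p ^ (r n + 1) ≤ 1 := pow_le_one₀ hp.le hp1
      have b1 : (1 - p ^ (r n + 1) / 2) ^ ⌈c * h n / 2⌉₊
          ≤ Real.exp (-(p ^ (r n + 1) / 2) * (c * h n / 2)) := by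
        calc (1 - p ^ (r n + 1) / 2) ^ ⌈c * h n / 2⌉₊
            ≤ (Real.exp (-(p ^ (r n + 1) / 2))) ^ ⌈c * h n / 2⌉₊ :=
              pow_le_pow_left₀ (by linarith) (Real.one_sub_le_exp_neg _) _
          _ = Real.exp ((⌈c * h n / 2⌉₊ : ℝ) * (-(p ^ (r n + 1) / 2))) := by
              rw [← Real.exp_nat_mul]
          _ ≤ Real.exp (-(p ^ (r n + 1) / 2) * (c * h n / 2)) := by
              apply Real.exp_le_exp.2
              have : c * h n / 2 ≤ (⌈c * h n / 2⌉₊ : ℝ) := Nat.le_ceil _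
              nlinarith
      have b2 : (2 : ℝ) ^ T (n + 1) ≤ Real.exp (T (n + 1)) := by
        have : (2 : ℝ) ≤ Real.exp 1 := by
          have := Real.add_one_le_exp (1 : ℝ); linarith
        calc (2 : ℝ) ^ T (n + 1) ≤ (Real.exp 1) ^ T (n + 1) :=
              pow_le_pow_left₀ (by norm_num) this _
          _ = Real.exp (T (n + 1)) := by rw [← Real.exp_nat_mul, mul_one]
      calc 2 ^ T (n + 1) * (1 - p ^ (r n + 1) / 2) ^ ⌈c * h n / 2⌉₊
          ≤ Real.exp (T (n + 1)) * Real.exp (-(p ^ (r n + 1) / 2) * (c * h n / 2)) :=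
            mul_le_mul b2 b1 (by
              apply pow_nonneg; linarith) (Real.exp_pos _).le
        _ = Real.exp (T (n + 1) + -(p ^ (r n + 1) / 2) * (c * h n / 2)) := by
            rw [← Real.exp_add]
        _ ≤ (Real.exp (-1)) ^ m := by
            rw [hexp]
            apply Real.exp_le_exp.2
            -- T (n+1) + m ≤ p^(r n + 1) * c * h n / 4
            have hT : (T (n + 1) : ℝ) ≤ ((m : ℝ) + 1) * P ^ (r (n + 1) + 1) + 1 := by
              have := (Nat.ceil_lt_add_one (show (0 : ℝ) ≤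
                ((n + 1 + N : ℕ) : ℝ) * P ^ (r (n + 1) + 1) by positivity)).le
              have e : ((n + 1 + N : ℕ) : ℝ) = (m : ℝ) + 1 := by
                rw [hm]; push_cast; ring
              rw [e] at this
              rw [show (T (n + 1) : ℝ) = ((⌈((n + 1 + N : ℕ) : ℝ) * P ^ (r (n + 1) + 1)⌉₊ : ℕ) : ℝ)
                from rfl, e]
              exact this
            have hC := hN3 m hmN3
            have hPe : P ^ (4 * k' + 2) * (P ^ (4 * k')) ^ m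
                = P ^ (r (n + 1) + 1) * P ^ (r n + 1) := by
              rw [← pow_mul, ← pow_add, ← pow_add]; congr 1
              show 4 * k' + 2 + 4 * k' * m
                = k' * (2 * (n + 1 + N) + 1) + 1 + (k' * (2 * (n + N) + 1) + 1)
              rw [hm]; ring
            set R1 : ℝ := P ^ (r (n + 1) + 1) with hR1
            set R0 : ℝ := P ^ (r n + 1) with hR0
            have hR1' : 1 ≤ R1 := one_le_pow₀ hP1
            have hR0' : 0 < R0 := by positivity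
            have hpR0 : p ^ (r n + 1) * R0 = 1 := by
              rw [hR0, ← mul_pow, hpP, one_pow]
            have hh : 2 * (h n : ℝ) = 2 ^ (m ^ 2) := h2hR n
            have hC' : (16 / c) * ((m : ℝ) + 1) * (R1 * R0) ≤ 2 * h n := by
              rw [hh]
              calc (16 / c) * ((m : ℝ) + 1) * (R1 * R0)
                  = (16 / c) * P ^ (4 * k' + 2) * ((m : ℝ) + 1) * (P ^ (4 * k')) ^ m := by
                    rw [← hPe]; ring
                _ ≤ 2 ^ (m ^ 2) := hC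
            have hC'' : 16 * ((m : ℝ) + 1) * (R1 * R0) ≤ 2 * c * h n := by
              have := mul_le_mul_of_nonneg_left hC' hc.le
              have e : c * ((16 / c) * ((m : ℝ) + 1) * (R1 * R0))
                  = 16 * ((m : ℝ) + 1) * (R1 * R0) := by
                field_simp
              linarith
            -- multiply by p^(r n+1)
            have hpp : 0 < p ^ (r n + 1) := by positivity
            have hC3 : 16 * ((m : ℝ) + 1) * R1 ≤ 2 * (p ^ (r n + 1) * (c * h n)) := by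
              have := mul_le_mul_of_nonneg_left hC'' hpp.le
              have e : p ^ (r n + 1) * (16 * ((m : ℝ) + 1) * (R1 * R0))
                  = 16 * ((m : ℝ) + 1) * R1 * (p ^ (r n + 1) * R0) := by ring
              rw [e, hpR0] at this
              linarith
            have hmR : (m : ℝ) + 1 ≤ ((m : ℝ) + 1) * R1 := by nlinarith
            nlinarith
    show _ ≤ 2 * (Real.exp (-1)) ^ m + q ^ m
    linarith
  · intro n
    show 0 ≤ 2 * (Real.exp (-1)) ^ (n + N) + q ^ (n + N)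
    positivity
  · have s1 : Summable (fun n : ℕ => 2 * (Real.exp (-1)) ^ (n + N)) := by
      have := (summable_geometric_of_lt_one he0 he1).mul_left (2 * (Real.exp (-1)) ^ N)
      refine this.congr (fun n => ?_)
      rw [pow_add]; ring
    have s2 : Summable (fun n : ℕ => q ^ (n + N)) := by
      have := (summable_geometric_of_lt_one hq0 hq1).mul_left (q ^ N)
      refine this.congr (fun n => ?_)
      rw [pow_add]; ring
    exact s1.add s2
  · have h1 : HasSum (fun n : ℕ => 2 * (Real.exp (-1)) ^ N * (Real.exp (-1)) ^ n)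
        (2 * (Real.exp (-1)) ^ N * (1 - Real.exp (-1))⁻¹) :=
      (hasSum_geometric_of_lt_one he0 he1).mul_left _
    have h2 : HasSum (fun n : ℕ => q ^ N * q ^ n) (q ^ N * (1 - q)⁻¹) :=
      (hasSum_geometric_of_lt_one hq0 hq1).mul_left _
    have h3 := h1.add h2
    have h4 : HasSum ε (2 * (Real.exp (-1)) ^ N * (1 - Real.exp (-1))⁻¹ + q ^ N * (1 - q)⁻¹) := by
      refine h3.congr_fun ?_ |> fun h => h
      intro n
      show 2 * (Real.exp (-1)) ^ (n + N) + q ^ (n + N) = _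
      rw [pow_add, pow_add]; ring
    rw [h4.tsum_eq]
    exact hN4 N (by omega)

end Pool.Agent.Helper37.Canopy
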