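import Pool.Agent.Helper37.Canopy.Meas
import Pool.Agent.Helper37.Canopy.Graph

/-! Module T3: infAt_ray, ladder_embed -/

namespace Pool.Agent.Helper37.Canopy

open MeasureTheory ProbabilityTheory unitInterval SimpleGraph

section T3

variable {D : Type} [AddCommGroup D] [Fintype D] [DecidableEq D] [Nontrivial D]
variable {V : Type*} {G : SimpleGraph V}

theorem infAt_shift [Countable V] {p : I} (v : V) (x : ℤ) :
    Pr p {ω | {y | (opn (G □ hasse ℤ) ω).Reachable (v, x) y}.Infinite} ≤
      Pr p {ω | {y | (opn (G □ hasse ℤ) ω).Reachable (v, 0) y}.Infinite} := by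
  let f : V × ℤ → V × ℤ := fun q => (q.1, q.2 - x)
  have hf : Function.Injective f := by
    rintro ⟨a, b⟩ ⟨c, d⟩ h
    have h1 : a = c := congrArg Prod.fst h
    have h2 : b - x = d - x := congrArg Prod.snd h
    exact Prod.ext h1 (by show b = d; linarith)
  have hadj : ∀ q q', (G □ hasse ℤ).Adj q q' → (G □ hasse ℤ).Adj (f q) (f q') := by
    rintro ⟨a, b⟩ ⟨c, d⟩ h
    rw [boxProd_adj] at h ⊢
    rcases h with ⟨h1, h2⟩ | ⟨h1, h2⟩
    · left
      exact ⟨h1, by show b - x = d - x; have : b = d := h2; rw [this]⟩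
    · right
      refine ⟨?_, h2⟩
      show (hasse ℤ).Adj (b - x) (d - x)
      have h1' : (hasse ℤ).Adj b d := h1
      rw [zadj] at h1' ⊢
      omega
  rw [← Pr_pull_graph (p := p) (W := V × ℤ) f (R' := Set.univ) hf.injOn (fun _ _ _ => trivial)
    (measurableSet_infAt _ _) (infAt_dep (G □ hasse ℤ) (v, x))]
  refine measureReal_mono ?_ (measure_ne_top _ _)
  intro ω hω
  have hω' : {y | (opn (G □ hasse ℤ) (fun e => ω (Sym2.map f e))).Reachable (v, x) y}.Infinite :=
    hω
  have h1 := hω'.image (f := f) hf.injOn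
  refine h1.mono ?_
  rintro _ ⟨y, hy, rfl⟩
  have h2 := reach_map f hadj (ω := ω) hy
  have h3 : f (v, x) = (v, 0) := by
    show (v, x - x) = (v, (0 : ℤ)); rw [sub_self]
  rw [h3] at h2
  exact h2

theorem infAt_ray [Countable V] (C : CData D G) {p : I} (hp : 0 < p) (j : ℕ) (x : ℤ)
    (h : 0 < Pr p {ω | {y | (opn (G □ hasse ℤ) ω).Reachable (C.ray j, x) y}.Infinite}) :
    0 < Pr p {ω | {y | (opn (G □ hasse ℤ) ω).Reachable (C.ray 0, 0) y}.Infinite} := by
  classical
  refine lt_of_lt_of_le ?_ (infAt_shift (C.ray 0) x)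
  let F : Finset (Sym2 (V × ℤ)) :=
    (Finset.range j).image (fun i => s((C.ray i, x), (C.ray (i + 1), x)))
  have hmul := mul_Pr_le_of_splice (p := p) ((F : Set (Sym2 (V × ℤ)))ᶜ)
    (measurableSet_infAt (G □ hasse ℤ) (C.ray 0, x))
    (measurableSet_infAt (G □ hasse ℤ) (C.ray j, x)) (c := (p : ℝ) ^ F.card) (by
      intro ω hω
      rw [← Pr_open (p := p) F]
      refine measureReal_mono ?_ (measure_ne_top _ _)
      intro ω' hω'
      have hω'' : ∀ e ∈ F, ω' e = true := hω'
      set τ := splice ((F : Set (Sym2 (V × ℤ)))ᶜ) ω ω' with hτ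
      have hle : ω ≤ τ := by
        intro e
        by_cases he : e ∈ F
        · have : τ e = true := by
            rw [hτ]; unfold splice
            rw [if_neg (by simpa using he)]
            exact hω'' e he
          rw [this]; exact Bool.le_true _
        · have : τ e = ω e := by
            rw [hτ]; unfold splice
            rw [if_pos (by simpa using he)]
          rw [this]
      have hpath : ∀ i, i ≤ j → (opn (G □ hasse ℤ) τ).Reachable (C.ray 0, x) (C.ray i, x) := by
        intro i
        induction i with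
        | zero => intro _; exact Reachable.refl _
        | succ i ih =>
          intro hi
          refine (ih (by omega)).trans (Adj.reachable ?_)
          refine ⟨?_, ?_⟩
          · rw [boxProd_adj]
            left
            exact ⟨(C.adj_iff _ _).2 (Or.inl (C.par_ray i)), rfl⟩
          · have hmem : s((C.ray i, x), (C.ray (i + 1), x)) ∈ F :=
              Finset.mem_image.2 ⟨i, Finset.mem_range.2 (by omega), rfl⟩
            rw [hτ]; unfold splice
            rw [if_neg (by simpa using hmem)]
            exact hω'' _ hmem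
      have hinf : {y | (opn (G □ hasse ℤ) ω).Reachable (C.ray j, x) y}.Infinite := hω
      refine hinf.mono ?_
      intro y hy
      have hy' : (opn (G □ hasse ℤ) ω).Reachable (C.ray j, x) y := hy
      exact (hpath j le_rfl).trans (hy'.mono (opn_mono le_rfl hle)))
  have hp' : (0 : ℝ) < (p : ℝ) := hp
  exact lt_of_lt_of_le (mul_pos (pow_pos hp' _) h) hmul

/-! #### Descendants -/

/-- The descendant of `v` with word `z`. -/
def desc (C : CData D G) (v : V) (z : List D) : V := z.foldl C.child v

theorem desc_nil (C : CData D G) (v : V) : desc C v [] = v := rfl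

theorem desc_concat (C : CData D G) (v : V) (z : List D) (a : D) :
    desc C v (z ++ [a]) = C.child (desc C v z) a := by
  unfold desc; rw [List.foldl_append]; rfl

theorem lev_desc (C : CData D G) (v : V) (z : List D) :
    z.length ≤ C.lev v → C.lev (desc C v z) + z.length = C.lev v := by
  induction z using List.reverseRecOn with
  | nil => intro _; rfl
  | append_singleton z a ih =>
    intro h
    rw [List.length_append, List.length_singleton] at h ⊢
    have ih' := ih (by omega)
    rw [desc_concat]
    have h1 : 1 ≤ C.lev (desc C v z) := by omega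
    have h2 := C.lev_par (C.child (desc C v z) a)
    rw [C.par_child _ _ h1] at h2
    omega

theorem par_desc (C : CData D G) (v : V) (z : List D) (a : D) (h : z.length + 1 ≤ C.lev v) :
    C.par (desc C v (z ++ [a])) = desc C v z := by
  rw [desc_concat]
  apply C.par_child
  have := lev_desc C v z (by omega)
  omega

/-- The sibling of the ray vertex `ray k`. -/
def sibl (C : CData D G) (a1 : D) (k : ℕ) : V := C.child (C.ray (k + 1)) a1

theorem par_sibl (C : CData D G) (a1 : D) (k : ℕ) : C.par (sibl C a1 k) = C.ray (k + 1) :=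
  C.par_child _ _ (by rw [C.lev_ray]; omega)

theorem lev_sibl (C : CData D G) (a1 : D) (k : ℕ) : C.lev (sibl C a1 k) = k := by
  have h := C.lev_par (sibl C a1 k)
  rw [par_sibl, C.lev_ray] at h
  omega

theorem not_ray (C : CData D G) {a1 : D} (ha : a1 ≠ 0) (k : ℕ) (z : List D) :
    z.length ≤ k → ∀ j, desc C (sibl C a1 k) z ≠ C.ray j := by
  induction z using List.reverseRecOn with
  | nil =>
    intro _ j h
    rw [desc_nil] at h
    have h1 := congrArg C.lev h
    rw [lev_sibl, C.lev_ray] at h1
    subst h1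
    rw [← C.child_ray k] at h
    exact ha (C.child_inj _ (by rw [C.lev_ray]; omega) h)
  | append_singleton z a ih =>
    intro hz j h
    rw [List.length_append, List.length_singleton] at hz
    apply ih (by omega) (j + 1)
    have h1 := congrArg C.par h
    rw [par_desc _ _ _ _ (by rw [lev_sibl]; exact hz), C.par_ray] at h1
    exact h1

theorem desc_sibl_inj (C : CData D G) {a1 : D} (ha : a1 ≠ 0) (k : ℕ) (z : List D) :
    z.length ≤ k → ∀ k' z', z'.length ≤ k' → desc C (sibl C a1 k) z = desc C (sibl C a1 k') z' →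
      k = k' ∧ z = z' := by
  induction z using List.reverseRecOn with
  | nil =>
    intro _ k' z' hz' h
    rcases List.eq_nil_or_concat' z' with rfl | ⟨w, a, rfl⟩
    · rw [desc_nil, desc_nil] at h
      have h1 := congrArg C.lev h
      rw [lev_sibl, lev_sibl] at h1
      exact ⟨h1, rfl⟩
    · exfalso
      rw [List.length_append, List.length_singleton] at hz'
      have h1 := congrArg C.par h
      rw [desc_nil, par_sibl, par_desc _ _ _ _ (by rw [lev_sibl]; exact hz')] at h1
      exact not_ray C ha k' w (by omega) _ h1.symm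
  | append_singleton z a ih =>
    intro hz k' z' hz' h
    rw [List.length_append, List.length_singleton] at hz
    rcases List.eq_nil_or_concat' z' with rfl | ⟨w, b, rfl⟩
    · exfalso
      have h1 := congrArg C.par h
      rw [desc_nil, par_sibl, par_desc _ _ _ _ (by rw [lev_sibl]; exact hz)] at h1
      exact not_ray C ha k z (by omega) _ h1
    · rw [List.length_append, List.length_singleton] at hz'
      have h1 := congrArg C.par h
      rw [par_desc _ _ _ _ (by rw [lev_sibl]; exact hz),
        par_desc _ _ _ _ (by rw [lev_sibl]; exact hz')] at h1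
      obtain ⟨h2, h3⟩ := ih (by omega) k' w (by omega) h1
      subst h2; subst h3
      refine ⟨rfl, ?_⟩
      rw [desc_concat, desc_concat] at h
      have h4 := lev_desc C (sibl C a1 k) z (by rw [lev_sibl]; omega)
      rw [lev_sibl] at h4
      rw [C.child_inj _ (by omega) h]

/-- The embedding of the ladder graph. -/
def ladMap (C : CData D G) (a1 : D) : LV D → V × ℕ
  | (k, none, x) => (C.ray k, x.toNat)
  | (k, some z, x) => (desc C (sibl C a1 k) z, x.toNat)

/-- The support of the ladder graph. -/
def ladSupp (D : Type) : Set (LV D) := {q | 0 ≤ q.2.2 ∧ ∀ z, q.2.1 = some z → z.length ≤ q.1}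

theorem ladMap_inj (C : CData D G) {a1 : D} (ha : a1 ≠ 0) :
    Set.InjOn (ladMap C a1) (ladSupp D) := by
  rintro ⟨k, o, x⟩ ⟨hx, hz⟩ ⟨k', o', x'⟩ ⟨hx', hz'⟩ h
  simp only at hx hz hx' hz'
  have hxx : x.toNat = x'.toNat → x = x' := fun h => by omega
  cases o with
  | none =>
    cases o' with
    | none =>
      have h1 : C.ray k = C.ray k' := congrArg Prod.fst h
      have h2 : x.toNat = x'.toNat := congrArg Prod.snd h
      have h3 := congrArg C.lev h1
      rw [C.lev_ray, C.lev_ray] at h3
      rw [h3, hxx h2]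
    | some z' =>
      exfalso
      have h1 : C.ray k = desc C (sibl C a1 k') z' := congrArg Prod.fst h
      exact not_ray C ha k' z' (hz' z' rfl) _ h1.symm
  | some z =>
    cases o' with
    | none =>
      exfalso
      have h1 : desc C (sibl C a1 k) z = C.ray k' := congrArg Prod.fst h
      exact not_ray C ha k z (hz z rfl) _ h1
    | some z' =>
      have h1 : desc C (sibl C a1 k) z = desc C (sibl C a1 k') z' := congrArg Prod.fst h
      have h2 : x.toNat = x'.toNat := congrArg Prod.snd h
      obtain ⟨h3, h4⟩ := desc_sibl_inj C ha k z (hz z rfl) k' z' (hz' z' rfl) h1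
      rw [h3, h4, hxx h2]

theorem ladMap_adj' (C : CData D G) (a1 : D) {q q' : LV D} (h : LAdj D q q') :
    (G □ hasse ℕ).Adj (ladMap C a1 q) (ladMap C a1 q') := by
  cases h with
  | vert κ x hx =>
    rw [boxProd_adj]
    right
    refine ⟨?_, rfl⟩
    show (hasse ℕ).Adj x.toNat (x + 1).toNat
    rw [nadj]; omega
  | up κ x hx =>
    rw [boxProd_adj]
    left
    exact ⟨(C.adj_iff _ _).2 (Or.inl (C.par_ray κ)), rfl⟩
  | sib κ x hx =>
    rw [boxProd_adj]
    left
    exact ⟨(C.adj_iff _ _).2 (Or.inl (par_sibl C a1 κ)), rfl⟩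
  | inn κ q q' h0 h0' hl hl' hadj =>
    obtain ⟨z, x⟩ := q
    obtain ⟨z', x'⟩ := q'
    simp only at h0 h0' hl hl'
    have hadj' : (WT D □ hasse ℤ).Adj (z, x) (z', x') := hadj
    rw [boxProd_adj] at hadj' ⊢
    rcases hadj' with ⟨h1, h2⟩ | ⟨h1, h2⟩
    · left
      have h2' : x = x' := h2
      subst h2'
      refine ⟨?_, rfl⟩
      show G.Adj (desc C (sibl C a1 κ) z) (desc C (sibl C a1 κ) z')
      rw [C.adj_iff]
      rcases h1 with ⟨a, h1⟩ | ⟨a, h1⟩
      · right
        have h1' : z' = z ++ [a] := h1
        rw [h1'] at hl' ⊢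
        rw [List.length_append, List.length_singleton] at hl'
        exact par_desc _ _ _ _ (by rw [lev_sibl]; exact hl')
      · left
        have h1' : z = z' ++ [a] := h1
        rw [h1'] at hl ⊢
        rw [List.length_append, List.length_singleton] at hl
        exact par_desc _ _ _ _ (by rw [lev_sibl]; exact hl)
    · right
      have h2' : z = z' := h2
      subst h2'
      refine ⟨?_, rfl⟩
      show (hasse ℕ).Adj x.toNat x'.toNat
      have h1' : (hasse ℤ).Adj x x' := h1
      rw [zadj] at h1'
      rw [nadj]; omega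

theorem ladMap_adj (C : CData D G) (a1 : D) {q q' : LV D} (h : (LG D).Adj q q') :
    (G □ hasse ℕ).Adj (ladMap C a1 q) (ladMap C a1 q') := by
  unfold LG at h
  rw [SimpleGraph.fromRel_adj] at h
  rcases h.2 with h | h
  · exact ladMap_adj' C a1 h
  · exact (ladMap_adj' C a1 h).symm

theorem ladSupp_of_LAdj {q q' : LV D} (h : LAdj D q q') : q ∈ ladSupp D ∧ q' ∈ ladSupp D := by
  cases h with
  | vert κ x hx =>
    exact ⟨⟨hx, fun z hz => by cases hz⟩, ⟨by show 0 ≤ x + 1; omega, fun z hz => by cases hz⟩⟩
  | up κ x hx =>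
    exact ⟨⟨hx, fun z hz => by cases hz⟩, ⟨hx, fun z hz => by cases hz⟩⟩
  | sib κ x hx =>
    refine ⟨⟨hx, fun z hz => ?_⟩, ⟨hx, fun z hz => by cases hz⟩⟩
    have hz' : some [] = some z := hz
    cases hz'
    exact Nat.zero_le _
  | inn κ q q' h0 h0' hl hl' hadj =>
    refine ⟨⟨h0, fun z hz => ?_⟩, ⟨h0', fun z hz => ?_⟩⟩
    · have hz' : some q.1 = some z := hz
      cases hz'
      exact hl
    · have hz' : some q'.1 = some z := hz
      cases hz'
      exact hl'

theorem ladSupp_of_adj {q q' : LV D} (h : (LG D).Adj q q') : q ∈ ladSupp D := by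
  unfold LG at h
  rw [SimpleGraph.fromRel_adj] at h
  rcases h.2 with h | h
  · exact (ladSupp_of_LAdj h).1
  · exact (ladSupp_of_LAdj h).2

theorem mem_supp_of_reachable {W : Type*} {G : SimpleGraph W} {x y : W} (h : G.Reachable x y) :
    x = y ∨ ∃ z, G.Adj y z := by
  rcases h.symm with ⟨p⟩
  cases p with
  | nil => exact Or.inl rfl
  | cons h _ => exact Or.inr ⟨_, h⟩

theorem ladder_embed [Countable V] (C : CData D G) (p : I) :
    Pr p (infEv (LG D)) ≤ Pr p (infEv (G □ hasse ℕ)) := by
  obtain ⟨a1, ha⟩ := exists_ne (0 : D)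
  haveI : Countable D := inferInstance
  haveI : Countable (LV D) := inferInstance
  rw [← Pr_pull_graph (p := p) (W := V × ℕ) (ladMap C a1) (R' := ladSupp D) (ladMap_inj C ha)
    (fun _ _ h => ladSupp_of_adj h) (measurableSet_infEv (LG D)) (infEv_dep (LG D))]
  refine measureReal_mono ?_ (measure_ne_top _ _)
  intro ω hω
  obtain ⟨x, hx⟩ := hω
  refine ⟨ladMap C a1 x, ?_⟩
  set S : Set (LV D) :=
    {y | (opn (LG D) (fun e => ω (Sym2.map (ladMap C a1) e))).Reachable x y} with hS
  have hS' : (S \ {x}).Infinite := hx.diff (Set.finite_singleton x)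
  have hsub : S \ {x} ⊆ ladSupp D := by
    rintro y ⟨hy, hyx⟩
    rcases mem_supp_of_reachable hy with h | ⟨z, hz⟩
    · exact absurd h.symm hyx
    · exact ladSupp_of_adj hz.1
  have h1 := hS'.image (f := ladMap C a1) ((ladMap_inj C ha).mono hsub)
  refine h1.mono ?_
  rintro _ ⟨y, ⟨hy, _⟩, rfl⟩
  exact reach_map (ladMap C a1) (fun _ _ h => ladMap_adj C a1 h) hy

end T3

end Pool.Agent.Helper37.Canopy
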